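import Mathlib

/-!
# A finite group with a symmetric admissible set and without an admissible antipodal pair

The symmetric group `S₃` acts on `ℤ²` (the hexagonal lattice) and diagonally on `ℤ⁶ = (ℤ²)³`.
The orbit of one pair `{v, -v}` spans at most a space of dimension four, since every equivariant
image of the three blocks of `v` satisfies the same linear relation.  On the other hand there is
a symmetric set of ten integral points such that for any two of them some point of the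
segment between them is an interior point of the convex hull of all translates; hence no facet
contains two of them.
-/

set_option autoImplicit false

namespace Pool.Agent.Results.MP_123198_al.SymmetricSetWithoutPair

open Matrix

/-- The point of `ℝ^d` with integral coordinates `v`. -/
def toR {d : ℕ} (v : Fin d → ℤ) : Fin d → ℝ := fun i => (v i : ℝ)

/-- `A^F = {f(a) : f ∈ F, a ∈ A}` as a subset of `ℝ^d`. -/
def orb {d : ℕ} (F : Subgroup (GL (Fin d) ℤ)) (A : Set (Fin d → ℤ)) : Set (Fin d → ℝ) :=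
  {x | ∃ f ∈ F, ∃ a ∈ A, x = toR ((f : Matrix (Fin d) (Fin d) ℤ) *ᵥ a)}

/-- `Φ` is a facet of `P ⊆ ℝ^d`: the intersection of `P` with a supporting hyperplane, of
dimension `d - 1`. -/
def IsFacet {d : ℕ} (P Φ : Set (Fin d → ℝ)) : Prop :=
  ∃ (y : (Fin d → ℝ) →ₗ[ℝ] ℝ) (c : ℝ), y ≠ 0 ∧ (∀ x ∈ P, y x ≤ c) ∧ Φ = {x ∈ P | y x = c} ∧
    Φ.Nonempty ∧ Module.finrank ℝ (vectorSpan ℝ Φ) + 1 = d

/-- `A` is admissible for `F`: the convex hull of `A^F` has nonempty interior, and each of its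
facets contains at most one point of `A`. -/
def Admissible {d : ℕ} (F : Subgroup (GL (Fin d) ℤ)) (A : Set (Fin d → ℤ)) : Prop :=
  (interior (convexHull ℝ (orb F A))).Nonempty ∧
    ∀ Φ, IsFacet (convexHull ℝ (orb F A)) Φ → ∀ a ∈ A, ∀ b ∈ A, toR a ∈ Φ → toR b ∈ Φ → a = b

/-! ### The group -/

/-- the six `2 × 2` blocks -/
def blk : Fin 6 → Fin 2 → Fin 2 → ℤ :=
  ![![![1, 0], ![0, 1]], ![![0, -1], ![1, -1]], ![![-1, 1], ![-1, 0]], ![![1, -1], ![0, -1]], ![![0, 1], ![1, 0]], ![![-1, 0], ![-1, 1]]]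

/-- the six matrices -/
def M (k : Fin 6) : Matrix (Fin 6) (Fin 6) ℤ := fun i j =>
  if i.val / 2 = j.val / 2 then
    blk k ⟨i.val % 2, Nat.mod_lt _ (by norm_num)⟩ ⟨j.val % 2, Nat.mod_lt _ (by norm_num)⟩ else 0

theorem M_mul : ∀ i j : Fin 6, ∃ k : Fin 6, M i * M j = M k := by decide +kernel

theorem M_one : M 0 = 1 := by decide +kernel

theorem M_inv : ∀ i : Fin 6, ∃ j : Fin 6, M i * M j = 1 ∧ M j * M i = 1 := by decide +kernel

/-- the group `F` -/
def F : Subgroup (GL (Fin 6) ℤ) where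
  carrier := {g | ∃ k : Fin 6, (g : Matrix (Fin 6) (Fin 6) ℤ) = M k}
  mul_mem' := by
    rintro a b ⟨i, hi⟩ ⟨j, hj⟩
    obtain ⟨k, hk⟩ := M_mul i j
    exact ⟨k, by rw [Units.val_mul, hi, hj, hk]⟩
  one_mem' := ⟨0, by rw [M_one]; rfl⟩
  inv_mem' := by
    rintro a ⟨i, hi⟩
    obtain ⟨j, hj, hj'⟩ := M_inv i
    refine ⟨j, ?_⟩
    have : a⁻¹ = ⟨M j, M i, hj', hj⟩ := by
      rw [inv_eq_iff_mul_eq_one]
      ext1
      rw [Units.val_mul, hi]
      exact hj
    rw [this]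

theorem F_finite : Finite F := by
  have : Function.Injective (fun g : F => (⟨(g.1 : Matrix (Fin 6) (Fin 6) ℤ), g.2⟩ :
      {A : Matrix (Fin 6) (Fin 6) ℤ // ∃ k : Fin 6, A = M k})) := by
    intro g h hgh
    have h1 : (g.1 : Matrix (Fin 6) (Fin 6) ℤ) = h.1 := congrArg Subtype.val hgh
    exact Subtype.ext (Units.ext h1)
  have h2 : Finite {A : Matrix (Fin 6) (Fin 6) ℤ // ∃ k : Fin 6, A = M k} := by
    have : (Set.range M).Finite := Set.finite_range M
    refine (this.subset ?_).to_subtype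
    rintro A ⟨k, rfl⟩
    exact ⟨k, rfl⟩
  exact Finite.of_injective _ this

theorem exists_mem (k : Fin 6) : ∃ g ∈ F, (g : Matrix (Fin 6) (Fin 6) ℤ) = M k := by
  obtain ⟨j, hj, hj'⟩ := M_inv k
  exact ⟨⟨M k, M j, hj, hj'⟩, ⟨k, rfl⟩, rfl⟩

/-! ### The points -/

/-- the five points (up to sign) -/
def a : Fin 5 → Fin 6 → ℤ :=
  ![![1, 3, 2, 9, -4, -15],
   ![9, 18, -11, -5, 0, 10],
   ![10, 8, 2, -2, -9, 9],
   ![-23, 3, 1, -7, -21, -21],
   ![6, 9, 5, 4, -15, -6]]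

/-- the translates -/
def p (i : Fin 5) (k : Fin 6) : Fin 6 → ℤ := M k *ᵥ a i

/-- the symmetric set of ten points -/
def A : Finset (Fin 6 → ℤ) := Finset.univ.image a ∪ Finset.univ.image (fun i => - a i)

abbrev L := List (ℤ × Fin 5 × Fin 6)

/-- linear combination of translates -/
def vec (l : L) : Fin 6 → ℤ := (l.map fun t => t.1 • p t.2.1 t.2.2).sum

/-- total weight -/
def wt (l : L) : ℤ := (l.map fun t => |t.1|).sum

/-- certificates: `(i, j, s, c, c', l)` with `c • a i + c' • s • a j = vec l` and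
`wt l < c + c'` -/
def cert : List (Fin 5 × Fin 5 × ℤ × ℤ × ℤ × L) :=
  [(0, 1, -1, 623114, 708708, [(-740140, 0, 3), (278249, 3, 1), (-245948, 3, 2), (7942, 3, 4), (-1303, 3, 5)]),
   (0, 1, 1, 1972482, 1765236, [(2220420, 0, 5), (-739583, 3, 1), (666986, 3, 2), (-13171, 3, 3), (59065, 3, 4)]),
   (0, 2, -1, 511686, 588412, [(792648, 0, 5), (12745, 3, 1), (-184586, 3, 2), (-8871, 3, 3), (9013, 3, 4)]),
   (0, 2, 1, 1877055, 2724196, [(-1231965, 0, 1), (-34674, 2, 5), (764570, 3, 2), (17818, 3, 4), (857351, 4, 0)]),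
   (0, 3, -1, 31611104, 35478125, [(1205042, 0, 5), (-30363124, 1, 1), (31525912, 1, 2), (-685114, 3, 3), (243539, 3, 4)]),
   (0, 3, 1, 105228, 43569, [(-3150, 0, 3), (97144, 2, 1), (-416, 2, 5), (1089, 3, 4), (-44478, 4, 2)]),
   (0, 4, -1, 14855358, 19067317, [(-9888687, 0, 2), (131922, 1, 3), (-7064838, 2, 0), (2834162, 3, 1), (188998, 3, 4)]),
   (0, 4, 1, 76470, 118118, [(-146904, 0, 3), (-19468, 3, 1), (17721, 3, 2), (1159, 3, 4), (-1359, 3, 5)]),
   (1, 0, -1, 708708, 623114, [(740140, 0, 3), (-278249, 3, 1), (245948, 3, 2), (-7942, 3, 4), (1303, 3, 5)]),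
   (1, 0, 1, 1765236, 1972482, [(2220420, 0, 5), (-739583, 3, 1), (666986, 3, 2), (-13171, 3, 3), (59065, 3, 4)]),
   (1, 2, -1, 14385294, 29737114, [(-18739494, 0, 2), (-10128006, 0, 4), (4292843, 3, 0), (38789, 3, 3), (-12895, 3, 5)]),
   (1, 2, 1, 1391373, 1332595, [(-395550, 0, 0), (-612088, 3, 1), (944297, 3, 2), (9644, 3, 4), (57687, 4, 3)]),
   (1, 3, -1, 39669996, 15997650, [(1733759, 0, 1), (-20779235, 0, 4), (174426, 1, 3), (-530976, 1, 5), (30357921, 3, 2)]),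
   (1, 3, 1, 37337164, 14170122, [(-20494047, 0, 4), (-1733759, 1, 2), (118441, 1, 3), (-499270, 1, 5), (-27926727, 3, 1)]),
   (1, 4, -1, 3783319, 10119307, [(8220485, 0, 1), (-1769333, 0, 4), (189405, 1, 3), (-89597, 1, 5), (-182685, 3, 0)]),
   (1, 4, 1, 11746926, 9867370, [(3894414, 0, 0), (-86298, 1, 4), (-6239361, 3, 1), (5556250, 3, 2), (-25873, 3, 5)]),
   (2, 0, -1, 588412, 511686, [(-792648, 0, 5), (-12745, 3, 1), (184586, 3, 2), (8871, 3, 3), (-9013, 3, 4)]),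
   (2, 0, 1, 2724196, 1877055, [(-1231965, 0, 1), (-34674, 2, 5), (764570, 3, 2), (17818, 3, 4), (857351, 4, 0)]),
   (2, 1, -1, 29737114, 14385294, [(18739494, 0, 2), (10128006, 0, 4), (-4292843, 3, 0), (-38789, 3, 3), (12895, 3, 5)]),
   (2, 1, 1, 1332595, 1391373, [(-395550, 0, 0), (-612088, 3, 1), (944297, 3, 2), (9644, 3, 4), (57687, 4, 3)]),
   (2, 3, -1, 713716, 108037, [(19716, 0, 4), (7996, 2, 3), (162987, 3, 2), (-4831, 3, 5), (-602258, 4, 1)]),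
   (2, 3, 1, 544676, 173392, [(358575, 0, 2), (14031, 0, 4), (-201851, 3, 1), (-1311, 3, 3), (-9977, 4, 5)]),
   (2, 4, -1, 1441551, 1703874, [(-260368, 0, 0), (509605, 0, 3), (1047, 1, 4), (-20550, 1, 5), (-658506, 2, 1)]),
   (2, 4, 1, 512732, 355146, [(554652, 0, 4), (-72491, 3, 1), (217459, 3, 2), (6461, 3, 3), (-4747, 3, 5)]),
   (3, 0, -1, 35478125, 31611104, [(-1205042, 0, 5), (30363124, 1, 1), (-31525912, 1, 2), (685114, 3, 3), (-243539, 3, 4)]),
   (3, 0, 1, 43569, 105228, [(-3150, 0, 3), (97144, 2, 1), (-416, 2, 5), (1089, 3, 4), (-44478, 4, 2)]),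
   (3, 1, -1, 15997650, 39669996, [(-1733759, 0, 1), (20779235, 0, 4), (-174426, 1, 3), (530976, 1, 5), (-30357921, 3, 2)]),
   (3, 1, 1, 14170122, 37337164, [(-20494047, 0, 4), (-1733759, 1, 2), (118441, 1, 3), (-499270, 1, 5), (-27926727, 3, 1)]),
   (3, 2, -1, 108037, 713716, [(-19716, 0, 4), (-7996, 2, 3), (-162987, 3, 2), (4831, 3, 5), (602258, 4, 1)]),
   (3, 2, 1, 173392, 544676, [(358575, 0, 2), (14031, 0, 4), (-201851, 3, 1), (-1311, 3, 3), (-9977, 4, 5)]),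
   (3, 4, -1, 24758, 147103, [(114705, 0, 1), (879, 0, 3), (-42074, 3, 2), (1366, 3, 4), (-711, 3, 5)]),
   (3, 4, 1, 2090421, 12599337, [(-1689044, 0, 1), (254444, 0, 4), (-56265, 1, 3), (168936, 1, 5), (-11349957, 2, 2)]),
   (4, 0, -1, 19067317, 14855358, [(9888687, 0, 2), (-131922, 1, 3), (7064838, 2, 0), (-2834162, 3, 1), (-188998, 3, 4)]),
   (4, 0, 1, 118118, 76470, [(-146904, 0, 3), (-19468, 3, 1), (17721, 3, 2), (1159, 3, 4), (-1359, 3, 5)]),
   (4, 1, -1, 10119307, 3783319, [(-8220485, 0, 1), (1769333, 0, 4), (-189405, 1, 3), (89597, 1, 5), (182685, 3, 0)]),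
   (4, 1, 1, 9867370, 11746926, [(3894414, 0, 0), (-86298, 1, 4), (-6239361, 3, 1), (5556250, 3, 2), (-25873, 3, 5)]),
   (4, 2, -1, 1703874, 1441551, [(260368, 0, 0), (-509605, 0, 3), (-1047, 1, 4), (20550, 1, 5), (658506, 2, 1)]),
   (4, 2, 1, 355146, 512732, [(554652, 0, 4), (-72491, 3, 1), (217459, 3, 2), (6461, 3, 3), (-4747, 3, 5)]),
   (4, 3, -1, 147103, 24758, [(-114705, 0, 1), (-879, 0, 3), (42074, 3, 2), (-1366, 3, 4), (711, 3, 5)]),
   (4, 3, 1, 12599337, 2090421, [(-1689044, 0, 1), (254444, 0, 4), (-56265, 1, 3), (168936, 1, 5), (-11349957, 2, 2)])]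

/-- `3 • e_m` as a combination of translates -/
def spn : Fin 6 → L :=
  ![[(-1188, 2, 0), (2082, 4, 2), (282, 3, 1), (-2184, 2, 2), (-1233, 0, 4), (969, 4, 0)],
   [(282, 2, 0), (-498, 4, 2), (-69, 3, 1), (528, 2, 2), (297, 0, 4), (-228, 4, 0)],
   [(-103, 2, 0), (174, 4, 2), (21, 3, 1), (-173, 2, 2), (-99, 0, 4), (87, 4, 0)],
   [(1514, 2, 0), (-2649, 4, 2), (-357, 3, 1), (2773, 2, 2), (1566, 0, 4), (-1236, 4, 0)],
   [(-363, 2, 0), (632, 4, 2), (84, 3, 1), (-657, 2, 2), (-372, 0, 4), (298, 4, 0)],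
   [(1066, 2, 0), (-1866, 4, 2), (-252, 3, 1), (1955, 2, 2), (1104, 0, 4), (-870, 4, 0)]]

def ok (t : Fin 5 × Fin 5 × ℤ × ℤ × ℤ × L) : Bool :=
  decide (t.2.2.2.1 • a t.1 + (t.2.2.2.2.1 * t.2.2.1) • a t.2.1 = vec t.2.2.2.2.2) &&
    decide (wt t.2.2.2.2.2 < t.2.2.2.1 + t.2.2.2.2.1)

theorem all_ok : ∀ t ∈ cert, ok t = true := by decide +kernel

theorem complete : ∀ i j : Fin 5, i ≠ j →
    (∃ t ∈ cert, t.1 = i ∧ t.2.1 = j ∧ t.2.2.1 = 1) ∧
      (∃ t ∈ cert, t.1 = i ∧ t.2.1 = j ∧ t.2.2.1 = -1) := by decide +kernel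

theorem spn_ok : ∀ m : Fin 6, vec (spn m) = (3 : ℤ) • (Pi.single m 1 : Fin 6 → ℤ) := by
  decide +kernel

/-! ### Linear functionals -/

theorem toR_add (u v : Fin 6 → ℤ) : toR (u + v) = toR u + toR v := by
  ext i; simp [toR]

theorem toR_smul (n : ℤ) (v : Fin 6 → ℤ) : toR (n • v) = (n : ℝ) • toR v := by
  ext i; simp [toR]

theorem toR_zero : toR (0 : Fin 6 → ℤ) = 0 := by
  ext i; simp [toR]

theorem toR_neg (v : Fin 6 → ℤ) : toR (-v) = - toR v := by
  ext i; simp [toR]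

theorem abs_vec_le (y : (Fin 6 → ℝ) →ₗ[ℝ] ℝ) (c : ℝ)
    (hc : ∀ i k, |y (toR (p i k))| ≤ c) (l : L) : |y (toR (vec l))| ≤ (wt l : ℝ) * c := by
  induction l with
  | nil => simp [vec, wt, toR_zero]
  | cons t l ih =>
    have h1 : vec (t :: l) = t.1 • p t.2.1 t.2.2 + vec l := by simp [vec]
    have h2 : wt (t :: l) = |t.1| + wt l := by simp [wt]
    rw [h1, h2, toR_add, map_add, toR_smul, map_smul, smul_eq_mul]
    push_cast
    calc |(t.1 : ℝ) * y (toR (p t.2.1 t.2.2)) + y (toR (vec l))|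
        ≤ |(t.1 : ℝ) * y (toR (p t.2.1 t.2.2))| + |y (toR (vec l))| := abs_add_le _ _
      _ = |(t.1 : ℝ)| * |y (toR (p t.2.1 t.2.2))| + |y (toR (vec l))| := by rw [abs_mul]
      _ ≤ |(t.1 : ℝ)| * c + (wt l : ℝ) * c :=
          add_le_add (mul_le_mul_of_nonneg_left (hc _ _) (abs_nonneg _)) ih
      _ = (|(t.1 : ℝ)| + (wt l : ℝ)) * c := by ring

theorem key (y : (Fin 6 → ℝ) →ₗ[ℝ] ℝ) (c : ℝ) (hc : ∀ i k, |y (toR (p i k))| ≤ c)
    (t : Fin 5 × Fin 5 × ℤ × ℤ × ℤ × L) (ht : t ∈ cert)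
    (h1 : y (toR (a t.1)) = c) (h2 : (t.2.2.1 : ℝ) * y (toR (a t.2.1)) = c) : c ≤ 0 := by
  have hok := all_ok t ht
  unfold ok at hok
  rw [Bool.and_eq_true, decide_eq_true_eq, decide_eq_true_eq] at hok
  obtain ⟨e1, e2⟩ := hok
  have h3 := abs_vec_le y c hc t.2.2.2.2.2
  rw [← e1, toR_add, map_add, toR_smul, toR_smul, map_smul, map_smul, smul_eq_mul, smul_eq_mul,
    h1] at h3
  push_cast at h3
  have h4 : (t.2.2.2.2.1 : ℝ) * (t.2.2.1 : ℝ) * y (toR (a t.2.1)) = (t.2.2.2.2.1 : ℝ) * c := by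
    rw [mul_assoc, h2]
  rw [h4] at h3
  have h5 := (le_abs_self _).trans h3
  have h6 : ((wt t.2.2.2.2.2 : ℤ) : ℝ) < (t.2.2.2.1 : ℝ) + (t.2.2.2.2.1 : ℝ) := by
    exact_mod_cast e2
  nlinarith

theorem zero_of_zero (y : (Fin 6 → ℝ) →ₗ[ℝ] ℝ) (hc : ∀ i k, y (toR (p i k)) = 0) : y = 0 := by
  have h1 : ∀ m : Fin 6, y (Pi.single m (1 : ℝ)) = 0 := by
    intro m
    have h2 := abs_vec_le y 0 (fun i k => by rw [hc, abs_zero]) (spn m)
    rw [mul_zero, spn_ok, toR_smul, map_smul, smul_eq_mul] at h2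
    have h3 := abs_nonpos_iff.mp h2
    have h4 : toR (Pi.single m 1 : Fin 6 → ℤ) = Pi.single m (1 : ℝ) := by
      ext i
      by_cases hi : i = m
      · subst hi; simp [toR]
      · simp [toR, hi]
    rw [h4] at h3
    rcases mul_eq_zero.mp h3 with h | h
    · norm_num at h
    · exact h
  apply LinearMap.pi_ext'
  intro m
  ext
  simpa using h1 m

/-! ### Admissibility of the ten points -/

theorem mem_A {v : Fin 6 → ℤ} : v ∈ A ↔ ∃ i, v = a i ∨ v = - a i := by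
  unfold A
  rw [Finset.mem_union, Finset.mem_image, Finset.mem_image]
  constructor
  · rintro (⟨i, -, h⟩ | ⟨i, -, h⟩)
    · exact ⟨i, Or.inl h.symm⟩
    · exact ⟨i, Or.inr h.symm⟩
  · rintro ⟨i, h | h⟩
    · exact Or.inl ⟨i, Finset.mem_univ _, h.symm⟩
    · exact Or.inr ⟨i, Finset.mem_univ _, h.symm⟩

theorem p_mem (i : Fin 5) (k : Fin 6) : toR (p i k) ∈ orb F (A : Set (Fin 6 → ℤ)) := by
  obtain ⟨g, hg, hk⟩ := exists_mem k
  refine ⟨g, hg, a i, ?_, ?_⟩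
  · exact_mod_cast mem_A.mpr ⟨i, Or.inl rfl⟩
  · rw [hk]; rfl

theorem neg_p_mem (i : Fin 5) (k : Fin 6) : - toR (p i k) ∈ orb F (A : Set (Fin 6 → ℤ)) := by
  obtain ⟨g, hg, hk⟩ := exists_mem k
  refine ⟨g, hg, - a i, ?_, ?_⟩
  · exact_mod_cast mem_A.mpr ⟨i, Or.inr rfl⟩
  · rw [hk, Matrix.mulVec_neg, toR_neg]; rfl

theorem span_top : affineSpan ℝ (orb F (A : Set (Fin 6 → ℤ))) = ⊤ := by
  rw [← AffineSubspace.direction_eq_top_iff_of_nonempty, direction_affineSpan]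
  · by_contra hne
    obtain ⟨y, hy, hy'⟩ := Submodule.exists_le_ker_of_lt_top _ (lt_top_iff_ne_top.mpr hne)
    apply hy
    apply zero_of_zero
    intro i k
    have h1 := vsub_mem_vectorSpan ℝ (p_mem i k) (neg_p_mem i k)
    have h2 := hy' h1
    rw [LinearMap.mem_ker, vsub_eq_sub, sub_neg_eq_add, map_add] at h2
    linarith
  · exact ⟨_, (mem_affineSpan ℝ (p_mem 0 0))⟩

theorem admissible : Admissible F (A : Set (Fin 6 → ℤ)) := by
  refine ⟨interior_convexHull_nonempty_iff_affineSpan_eq_top.mpr span_top, ?_⟩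
  rintro Φ ⟨y, c, hy, hle, rfl, -, -⟩ u hu v hv ⟨-, hu'⟩ ⟨-, hv'⟩
  have hc : ∀ i k, |y (toR (p i k))| ≤ c := by
    intro i k
    rw [abs_le]
    have h1 := hle _ (subset_convexHull ℝ _ (p_mem i k))
    have h2 := hle _ (subset_convexHull ℝ _ (neg_p_mem i k))
    rw [map_neg] at h2
    constructor <;> linarith
  have hpos : 0 < c := by
    rcases lt_or_ge 0 c with h | h
    · exact h
    · exfalso
      apply hy
      apply zero_of_zero
      intro i k
      exact abs_nonpos_iff.mp ((hc i k).trans h)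
  obtain ⟨i, hi⟩ := mem_A.mp (by exact_mod_cast hu)
  obtain ⟨j, hj⟩ := mem_A.mp (by exact_mod_cast hv)
  by_cases hij : i = j
  · subst hij
    rcases hi with rfl | rfl <;> rcases hj with rfl | rfl
    · rfl
    · exfalso; rw [toR_neg, map_neg] at hv'; linarith
    · exfalso; rw [toR_neg, map_neg] at hu'; linarith
    · rfl
  · exfalso
    obtain ⟨⟨t, ht, t1, t2, t3⟩, ⟨t', ht', t1', t2', t3'⟩⟩ := complete i j hij
    have hc' : ∀ i k, |(-y) (toR (p i k))| ≤ c := by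
      intro i k
      rw [LinearMap.neg_apply, abs_neg]
      exact hc i k
    rcases hi with rfl | rfl <;> rcases hj with rfl | rfl
    · have := key y c hc t ht (by rw [t1]; exact hu') (by rw [t2, t3]; simpa using hv')
      linarith
    · rw [toR_neg, map_neg] at hv'
      have := key y c hc t' ht' (by rw [t1']; exact hu')
        (by rw [t2', t3']; push_cast; linarith)
      linarith
    · rw [toR_neg, map_neg] at hu'
      have := key (-y) c hc' t' ht' (by rw [t1', LinearMap.neg_apply]; exact hu')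
        (by rw [t2', t3', LinearMap.neg_apply]; push_cast; linarith)
      linarith
    · rw [toR_neg, map_neg] at hu' hv'
      have := key (-y) c hc' t ht (by rw [t1, LinearMap.neg_apply]; exact hu')
        (by rw [t2, t3, LinearMap.neg_apply]; push_cast; linarith)
      linarith

/-! ### No pair is admissible -/

theorem exists_relation (v : Fin 6 → ℤ) : ∃ w : Fin 3 → ℝ, w ≠ 0 ∧
    w 0 * v 0 + w 1 * v 2 + w 2 * v 4 = 0 ∧ w 0 * v 1 + w 1 * v 3 + w 2 * v 5 = 0 := by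
  let N : Matrix (Fin 2) (Fin 3) ℝ := !![(v 0 : ℝ), v 2, v 4; v 1, v 3, v 5]
  have h : LinearMap.ker (Matrix.mulVecLin N) ≠ ⊥ := by
    apply LinearMap.ker_ne_bot_of_finrank_lt
    simp
  obtain ⟨w, hw, hw0⟩ := (Submodule.ne_bot_iff _).mp h
  refine ⟨w, hw0, ?_, ?_⟩
  · have := congrFun (LinearMap.mem_ker.mp hw) 0
    simp [N, Matrix.mulVec, dotProduct, Fin.sum_univ_succ] at this
    linarith
  · have := congrFun (LinearMap.mem_ker.mp hw) 1
    simp [N, Matrix.mulVec, dotProduct, Fin.sum_univ_succ] at this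
    linarith

theorem blk_apply (k : Fin 6) (v : Fin 6 → ℤ) :
    (M k *ᵥ v) 0 = blk k 0 0 * v 0 + blk k 0 1 * v 1 ∧
    (M k *ᵥ v) 2 = blk k 0 0 * v 2 + blk k 0 1 * v 3 ∧
    (M k *ᵥ v) 4 = blk k 0 0 * v 4 + blk k 0 1 * v 5 := by
  refine ⟨?_, ?_, ?_⟩ <;>
  · rw [Matrix.mulVec, dotProduct]
    simp only [Fin.sum_univ_succ, M]
    norm_num [Fin.ext_iff, Fin.succ]
    try rfl

theorem not_admissible (v : Fin 6 → ℤ) : ¬ Admissible F {v, -v} := by
  rintro ⟨hne, -⟩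
  obtain ⟨w, hw, e1, e2⟩ := exists_relation v
  let y : (Fin 6 → ℝ) →ₗ[ℝ] ℝ := w 0 • LinearMap.proj 0 + w 1 • LinearMap.proj 2 +
    w 2 • LinearMap.proj 4
  have hy : ∀ x ∈ orb F {v, -v}, y x = 0 := by
    rintro x ⟨g, ⟨k, hk⟩, u, hu, rfl⟩
    rw [hk]
    have key0 : y (toR (M k *ᵥ v)) = 0 := by
      obtain ⟨b0, b1, b2⟩ := blk_apply k v
      have : y (toR (M k *ᵥ v)) = w 0 * ((M k *ᵥ v) 0 : ℤ) + w 1 * ((M k *ᵥ v) 2 : ℤ) +
          w 2 * ((M k *ᵥ v) 4 : ℤ) := rfl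
      rw [this, b0, b1, b2]
      push_cast
      linear_combination (blk k 0 0 : ℝ) * e1 + (blk k 0 1 : ℝ) * e2
    rcases hu with rfl | hu
    · exact key0
    · rw [Set.mem_singleton_iff.mp hu, Matrix.mulVec_neg, toR_neg, map_neg, key0, neg_zero]
  have hsub : convexHull ℝ (orb F {v, -v}) ⊆ (LinearMap.ker y : Set (Fin 6 → ℝ)) :=
    convexHull_min (fun x hx => LinearMap.mem_ker.mpr (hy x hx)) (LinearMap.ker y).convex
  have htop := Submodule.eq_top_of_nonempty_interior' (LinearMap.ker y)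
    (hne.mono (interior_mono hsub))
  rw [LinearMap.ker_eq_top] at htop
  apply hw
  ext i
  have h0 : y (Pi.single 0 1) = w 0 := by simp [y]
  have h2 : y (Pi.single 2 1) = w 1 := by simp [y]
  have h4 : y (Pi.single 4 1) = w 2 := by simp [y]
  rw [htop] at h0 h2 h4
  fin_cases i
  · exact h0.symm
  · exact h2.symm
  · exact h4.symm

/-- The implication (S) ⟹ (B) fails for a group of order six acting on `ℤ⁶`. -/
theorem result : ∃ F : Subgroup (GL (Fin 6) ℤ), Finite F ∧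
    (∃ A : Finset (Fin 6 → ℤ), (∀ u ∈ A, -u ∈ A) ∧ Admissible F (A : Set (Fin 6 → ℤ))) ∧
      ¬ ∃ v : Fin 6 → ℤ, Admissible F {v, -v} := by
  refine ⟨F, F_finite, ⟨A, ?_, admissible⟩, ?_⟩
  · intro u hu
    obtain ⟨i, hi⟩ := mem_A.mp hu
    rcases hi with rfl | rfl
    · exact mem_A.mpr ⟨i, Or.inr rfl⟩
    · exact mem_A.mpr ⟨i, Or.inl (neg_neg _)⟩
  · rintro ⟨v, hv⟩
    exact not_admissible v hv

end Pool.Agent.Results.MP_123198_al.SymmetricSetWithoutPair
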